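import Pool.Agent.U307.LR.F

/-! Neighbours of spread sequences. -/

set_option autoImplicit false

namespace Pool.Agent.U307.LR

open Finset
open Pool.Agent.Y967.CM (Spr Spread)

theorem spr_near {δ : ℝ} {x y : ℕ → ℤ} (h : Spr δ x) (hy : ∀ n, y n = x n ∨ y n = x n + 1) : Spr δ y := by
  classical
  intro ε hε
  obtain ⟨η, hη, N0, h1⟩ := h ε hε
  refine ⟨η / 2, by positivity, N0, fun N hN T hT P hP hc => ?_⟩
  have h2 : #({c ∈ range (2 ^ T) | P (((c : ℕ) : ℤ) + 1)} : Finset ℕ) ≤ #({c ∈ range (2 ^ T) | P ((c : ℕ) : ℤ)} : Finset ℕ) := by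
    apply card_le_card_of_injOn (fun c => (c + 1) % 2 ^ T)
    · intro c hc
      rw [mem_coe, mem_filter, mem_range] at hc
      rw [mem_coe, mem_filter, mem_range]
      refine ⟨Nat.mod_lt _ (by positivity), ?_⟩
      have h3 := hP (((c + 1) % 2 ^ T : ℕ) : ℤ) (((c + 1) / 2 ^ T : ℕ) : ℤ)
      have h4 : (((c + 1) % 2 ^ T : ℕ) : ℤ) + (((c + 1) / 2 ^ T : ℕ) : ℤ) * 2 ^ T = (c : ℤ) + 1 := by
        have h5 := Nat.mod_add_div (c + 1) (2 ^ T)
        have h6 : (((c + 1) % 2 ^ T + 2 ^ T * ((c + 1) / 2 ^ T) : ℕ) : ℤ) = ((c + 1 : ℕ) : ℤ) := by rw [h5]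
        push_cast at h6 ⊢
        linarith
      rw [h4] at h3
      exact h3.1 hc.2
    · intro c hc d hd hcd
      rw [mem_coe, mem_filter, mem_range] at hc hd
      have h3 : c + 1 ≡ d + 1 [MOD 2 ^ T] := hcd
      have h4 : c ≡ d [MOD 2 ^ T] := Nat.ModEq.add_right_cancel' 1 h3
      have h5 : c % 2 ^ T = d % 2 ^ T := h4
      rwa [Nat.mod_eq_of_lt hc.1, Nat.mod_eq_of_lt hd.1] at h5
  obtain ⟨Q, hQ⟩ : ∃ Q : ℤ → Prop, ∀ z, Q z ↔ (P z ∨ P (z + 1)) := ⟨_, fun _ => Iff.rfl⟩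
  have h4 : ({c ∈ range (2 ^ T) | Q ((c : ℕ) : ℤ)} : Finset ℕ) ⊆
      {c ∈ range (2 ^ T) | P ((c : ℕ) : ℤ)} ∪ {c ∈ range (2 ^ T) | P (((c : ℕ) : ℤ) + 1)} := by
    intro c hc
    rw [mem_filter, hQ] at hc
    rw [mem_union, mem_filter, mem_filter]
    rcases hc.2 with h | h
    · left; exact ⟨hc.1, h⟩
    · right; exact ⟨hc.1, h⟩
  have h5 := (card_le_card h4).trans (card_union_le _ _)
  have h6 : (#({c ∈ range (2 ^ T) | Q ((c : ℕ) : ℤ)} : Finset ℕ) : ℝ) ≤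
      #({c ∈ range (2 ^ T) | P ((c : ℕ) : ℤ)} : Finset ℕ) + #({c ∈ range (2 ^ T) | P ((c : ℕ) : ℤ)} : Finset ℕ) := by
    exact_mod_cast h5.trans (Nat.add_le_add_left h2 _)
  have h3 := h1 N hN T hT Q (fun z m => by
    have e : z + m * 2 ^ T + 1 = z + 1 + m * 2 ^ T := by ring
    rw [hQ, hQ, e, hP z m, hP (z + 1) m]) (by linarith)
  have h7 : ({n ∈ Icc 1 N | P (y n)} : Finset ℕ) ⊆ {n ∈ Icc 1 N | Q (x n)} := by
    intro n hn
    rw [mem_filter] at hn ⊢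
    refine ⟨hn.1, ?_⟩
    rw [hQ]
    rcases hy n with h | h
    · left; rw [← h]; exact hn.2
    · right; rw [← h]; exact hn.2
  have h8 : (#({n ∈ Icc 1 N | P (y n)} : Finset ℕ) : ℝ) ≤ #({n ∈ Icc 1 N | Q (x n)} : Finset ℕ) := by
    exact_mod_cast card_le_card h7
  exact h8.trans h3

theorem spread_near {x y : ℕ → ℤ} (h : Spread x) (hy : ∀ n, y n = x n ∨ y n = x n + 1) : Spread y := by
  obtain ⟨δ, hδ, h1⟩ := h.spr
  exact (spr_near h1 hy).spread hδ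

/-- the odd one of `x`, `x + 1` -/
def oddOf (x : ℤ) : ℤ := if x % 2 = 0 then x + 1 else x

theorem oddOf_odd (x : ℤ) : Odd (oddOf x) := by
  unfold oddOf
  rw [Int.odd_iff]
  split_ifs <;> omega

theorem oddOf_or (x : ℤ) : oddOf x = x ∨ oddOf x = x + 1 := by
  unfold oddOf
  split_ifs
  · right; rfl
  · left; rfl

theorem spread_oddOf {x : ℕ → ℤ} (h : Spread x) : Spread (fun n => oddOf (x n)) :=
  spread_near h fun n => oddOf_or (x n)

theorem oddOf_close (x : ℤ) : |(oddOf x : ℝ) - x| ≤ 1 := by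
  rcases oddOf_or x with h | h
  · rw [h, sub_self, abs_zero]; norm_num
  · rw [h]; push_cast; rw [add_sub_cancel_left, abs_one]

end Pool.Agent.U307.LR
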