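import Pool.Agent.U307.LR.E

/-! Smooth sequences and spread sequences. -/

set_option autoImplicit false

namespace Pool.Agent.U307.LR

open Finset Polynomial Filter Topology
open Pool.Agent.Y967.CM (Spr Spread spr_id)

theorem Smooth.comp {u : ℕ → ℤ} (hu : Smooth u) (hne : NoConst u) {e : ℕ → ℕ}
    (he : Spread (fun n => (e n : ℤ))) : Spread (fun n => u (e n)) := by
  obtain ⟨δ, hδ, h⟩ := he.spr
  exact (hu.spr_comp hne h).spread hδ

theorem Smooth.spread {u : ℕ → ℤ} (hu : Smooth u) (hne : NoConst u) : Spread u :=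
  hu.comp hne (e := fun n => n) (spr_id.spread one_pos)

/-- A spread sequence is constant on no arithmetic progression. -/
theorem Spread.noConst {u : ℕ → ℤ} (h : Spread u) : NoConst u := by
  classical
  intro a q hq
  by_contra hcon
  push Not at hcon
  obtain ⟨δ, hδ, h1⟩ := h
  have hqr : (1 : ℝ) ≤ q := by exact_mod_cast hq
  obtain ⟨η, hη, N0, h2⟩ := h1 (1 / (4 * q)) (by positivity)
  obtain ⟨t, ht⟩ := pow_unbounded_of_one_lt (1 / η) (show (1 : ℝ) < 2 by norm_num)
  have h3 : Tendsto (fun N : ℕ => (N : ℝ) ^ δ) atTop atTop :=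
    (tendsto_rpow_atTop hδ).comp tendsto_natCast_atTop_atTop
  obtain ⟨N, hN1, hN2, hN3⟩ := ((h3.eventually_ge_atTop ((2 : ℝ) ^ t)).and
    ((eventually_ge_atTop N0).and (eventually_gt_atTop (4 * (a + 2 * q))))).exists
  have h4 := h2 N hN2 t hN1 {u a} (by
    rw [card_singleton]
    rw [div_lt_iff₀ hη] at ht
    push_cast
    linarith)
  have h5 : (N - a) / q ≤ #({n ∈ Icc 1 N | ∃ b ∈ ({u a} : Finset ℤ), u n ≡ b [ZMOD 2 ^ t]} : Finset ℕ) + 1 := by
    have h6 : #(Icc 1 ((N - a) / q)) ≤ #({n ∈ Icc 1 N | ∃ b ∈ ({u a} : Finset ℤ), u n ≡ b [ZMOD 2 ^ t]} : Finset ℕ) := by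
      apply card_le_card_of_injOn (fun m => a + q * m)
      · intro m hm
        rw [mem_coe, mem_Icc] at hm
        rw [mem_coe, mem_filter, mem_Icc]
        have h7 : q * m ≤ N - a := (Nat.mul_le_mul_left q hm.2).trans (Nat.mul_div_le _ _)
        have h8 : 1 * 1 ≤ q * m := Nat.mul_le_mul hq hm.1
        refine ⟨⟨?_, ?_⟩, u a, mem_singleton_self _, ?_⟩
        · change 1 ≤ a + q * m
          omega
        · change a + q * m ≤ N
          omega
        · change u (a + q * m) ≡ u a [ZMOD 2 ^ t]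
          rw [hcon m]
      · intro m _ m' _ h
        simp only at h
        exact Nat.eq_of_mul_eq_mul_left hq (by omega)
    rw [Nat.card_Icc] at h6
    omega
  have h6 : N - a < q * ((N - a) / q) + q := by
    have := Nat.lt_mul_div_succ (N - a) (show 0 < q by omega)
    linarith [this, Nat.mul_succ q ((N - a) / q)]
  set c := #({n ∈ Icc 1 N | ∃ b ∈ ({u a} : Finset ℤ), u n ≡ b [ZMOD 2 ^ t]} : Finset ℕ) with hc
  have h7 : N < a + q * (c + 1) + q := by
    have : q * ((N - a) / q) ≤ q * (c + 1) := Nat.mul_le_mul_left q h5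
    omega
  have h8 : (N : ℝ) < a + q * (c + 1) + q := by exact_mod_cast h7
  have h9 : (q : ℝ) * c ≤ N / 4 := by
    have : (q : ℝ) * c ≤ q * (1 / (4 * q) * N) := by
      apply mul_le_mul_of_nonneg_left _ (by linarith)
      refine le_trans (le_of_eq ?_) h4
      congr!
    refine this.trans (le_of_eq ?_)
    field_simp
  have h10 : ((4 * (a + 2 * q) : ℕ) : ℝ) < N := by exact_mod_cast hN3
  push_cast at h10
  nlinarith

theorem Smooth.spread_iff {u : ℕ → ℤ} (hu : Smooth u) : Spread u ↔ NoConst u :=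
  ⟨Spread.noConst, hu.spread⟩

theorem noConst_of_tendsto {u : ℕ → ℤ} (h : Tendsto (fun n => |u n|) atTop atTop) : NoConst u := by
  intro a q hq
  obtain ⟨N, hN⟩ := eventually_atTop.1 (h.eventually_gt_atTop |u a|)
  refine ⟨N, fun h1 => ?_⟩
  have h2 : N ≤ a + q * N := (Nat.le_mul_of_pos_left N (by omega)).trans (Nat.le_add_left _ _)
  have h3 := hN _ h2
  rw [h1] at h3
  exact lt_irrefl _ h3

theorem fib_odd : OddRec (fun n => (Nat.fib n : ℤ)) := by
  refine ⟨2, fun _ => 1, by norm_num, by decide, fun n => ?_⟩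
  simp only [sum_range_succ, sum_range_zero, one_mul, zero_add, add_zero]
  rw [Nat.fib_add_two]
  push_cast; ring

theorem fib_noConst : NoConst (fun n => (Nat.fib n : ℤ)) := by
  apply noConst_of_tendsto
  rw [tendsto_atTop_atTop]
  intro B
  refine ⟨max 5 B.toNat, fun n hn => ?_⟩
  have h1 : n ≤ Nat.fib n := Nat.le_fib_self ((le_max_left _ _).trans hn)
  have h2 : B ≤ (n : ℤ) := (Int.self_le_toNat B).trans (by exact_mod_cast (le_max_right _ _).trans hn)
  rw [Nat.abs_cast]
  exact h2.trans (by exact_mod_cast h1)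

/-- The derangement numbers. -/
theorem der_smooth : Smooth (fun n => (-1) ^ n * (numDerangements n : ℤ)) := by
  have h := newton_smooth (fun j => (-1) ^ j)
  have e : (fun n => (-1 : ℤ) ^ n * (numDerangements n : ℤ)) =
      fun n => ∑ j ∈ range (n + 1), (-1) ^ j * (n.descFactorial j : ℤ) := by
    funext n
    rw [numDerangements_sum, mul_sum]
    rw [← sum_range_reflect]
    refine sum_congr rfl fun j hj => ?_
    rw [mem_range] at hj
    have e1 : n + 1 - 1 - j = n - j := by omega
    have e2 : n - (n - j) = j := by omega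
    rw [e1, e2]
    have e3 : (-1 : ℤ) ^ n * (-1) ^ (n - j) = (-1) ^ j := by
      have h1 : n = (n - j) + j := by omega
      have h2 : (-1 : ℤ) ^ n = (-1) ^ (n - j) * (-1) ^ j := by rw [← pow_add, ← h1]
      rw [h2]
      have h3 : (-1 : ℤ) ^ (n - j) * (-1) ^ (n - j) = 1 := by
        rw [← mul_pow]; simp
      linear_combination (-1) ^ j * h3
    rw [← mul_assoc, e3]
    congr 2
    have h4 := Nat.add_descFactorial_eq_ascFactorial (n - j) j
    have h5 : n - j + j = n := by omega
    rw [h5] at h4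
    exact h4.symm
  rw [e]; exact h

end Pool.Agent.U307.LR
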