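import Pool.Agent.U307.LR.B
import Pool.Agent.Y967.CM.SP

/-! Analytic sequences map small sets of classes to small sets of classes. -/

set_option autoImplicit false

namespace Pool.Agent.U307.LR

open Finset Polynomial
open Pool.Agent.Y967.CM (Spr Spread exists_class fibre_count)

theorem per_of {T : ℕ} {P : ℤ → Prop} (hP : ∀ y m : ℤ, P (y + m * 2 ^ T) ↔ P y) {y z : ℤ}
    (h : (2 : ℤ) ^ T ∣ y - z) : P y ↔ P z := by
  obtain ⟨c, hc⟩ := h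
  have : y = z + c * 2 ^ T := by linear_combination hc
  rw [this]; exact hP z c

open Classical in
theorem empty_of {T : ℕ} {P : ℤ → Prop} (hP : ∀ y m : ℤ, P (y + m * 2 ^ T) ↔ P y)
    (hc : (#{c ∈ range (2 ^ T) | P ((c : ℕ) : ℤ)} : ℝ) < 1) (y : ℤ) : ¬ P y := by
  intro hy
  obtain ⟨c, hcr, k, hk⟩ := exists_class T y
  rw [hk, hP] at hy
  have h6 : c ∈ ({c ∈ range (2 ^ T) | P ((c : ℕ) : ℤ)} : Finset ℕ) := mem_filter.2 ⟨hcr, hy⟩
  have h7 : 0 < #({c ∈ range (2 ^ T) | P ((c : ℕ) : ℤ)} : Finset ℕ) := card_pos.2 ⟨c, h6⟩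
  have h8 : #({c ∈ range (2 ^ T) | P ((c : ℕ) : ℤ)} : Finset ℕ) < 1 := by exact_mod_cast hc
  omega

open Classical in
theorem class_count {b y : ℕ → ℤ} (h : An b y) (hne : ∃ m, y m ≠ y 0) {ε : ℝ} (hε : 0 < ε) :
    ∃ η : ℝ, 0 < η ∧ ∀ T : ℕ, ∀ P : ℤ → Prop, (∀ y m : ℤ, P (y + m * 2 ^ T) ↔ P y) →
      (#{c ∈ range (2 ^ T) | P ((c : ℕ) : ℤ)} : ℝ) ≤ η * 2 ^ T →
      (#{m ∈ range (2 ^ T) | P (y m)} : ℝ) ≤ ε * 2 ^ T := by
  obtain ⟨d, μ, hd⟩ := exists_index h hne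
  obtain ⟨s, hs⟩ := pow_unbounded_of_one_lt ((2 * d : ℝ) / ε) (show (1 : ℝ) < 2 by norm_num)
  have hs' : (d : ℝ) ≤ ε / 2 * 2 ^ s := by
    rw [div_lt_iff₀ hε] at hs
    linarith
  set j := μ + 1 + d * s with hj
  set T0 := max j s with hT0
  set η : ℝ := min (ε / 2 / 4 ^ j) (1 / 2 ^ (T0 + 1)) with hη
  have hη0 : 0 < η := lt_min (by positivity) (by positivity)
  refine ⟨η, hη0, fun T P hP hc => ?_⟩
  rcases lt_or_ge T T0 with hTT | hTT
  · have h3 : (#{c ∈ range (2 ^ T) | P ((c : ℕ) : ℤ)} : ℝ) < 1 := by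
      refine lt_of_le_of_lt hc ?_
      have h4 : (2 : ℝ) ^ T < 2 ^ (T0 + 1) := pow_lt_pow_right₀ (by norm_num) (by omega)
      calc η * 2 ^ T ≤ 1 / 2 ^ (T0 + 1) * 2 ^ T :=
            mul_le_mul_of_nonneg_right (min_le_right _ _) (by positivity)
        _ < 1 / 2 ^ (T0 + 1) * 2 ^ (T0 + 1) := mul_lt_mul_of_pos_left h4 (by positivity)
        _ = 1 := by field_simp
    have h5 := empty_of hP h3
    have h6 : ({m ∈ range (2 ^ T) | P (y m)} : Finset ℕ) = ∅ := filter_eq_empty_iff.2 fun m _ => h5 _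
    rw [h6, card_empty, Nat.cast_zero]
    positivity
  · have hjT : j ≤ T := (le_max_left _ _).trans hTT
    have hsT : s ≤ T := (le_max_right _ _).trans hTT
    obtain ⟨h1, h2⟩ := hd T (by omega)
    have h3 : ({m ∈ range (2 ^ T) | P (y m)} : Finset ℕ) ⊆
        {c ∈ range (2 ^ T) | (2 : ℤ) ^ j ∣ (derivative (G b T)).eval ((c : ℕ) : ℤ)} ∪
        {c ∈ range (2 ^ T) | ¬ ((2 : ℤ) ^ j ∣ (derivative (G b T)).eval ((c : ℕ) : ℤ)) ∧
          P ((G b T).eval ((c : ℕ) : ℤ))} := by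
      intro c hc
      rw [mem_filter] at hc
      rw [mem_union, mem_filter, mem_filter]
      by_cases h4 : (2 : ℤ) ^ j ∣ (derivative (G b T)).eval ((c : ℕ) : ℤ)
      · left; exact ⟨hc.1, h4⟩
      · right; exact ⟨hc.1, h4, (per_of hP (an_eval h T c)).1 hc.2⟩
    have h4 := roots_count hsT d (derivative (G b T)) μ j h1 h2 le_rfl
    have h5 := fibre_count (f := G b T) hjT P hP
    have h6 := ((card_le_card h3).trans (card_union_le _ _)).trans (Nat.add_le_add h4 h5)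
    have h7 : (#({m ∈ range (2 ^ T) | P (y m)} : Finset ℕ) : ℝ) ≤
        d * 2 ^ (T - s) + #{c ∈ range (2 ^ T) | P ((c : ℕ) : ℤ)} * (2 ^ j * 2 ^ j) := by
      exact_mod_cast h6
    have h8 : (d : ℝ) * 2 ^ (T - s) ≤ ε / 2 * 2 ^ T := by
      have e : (2 : ℝ) ^ T = 2 ^ s * 2 ^ (T - s) := by rw [← pow_add, Nat.add_sub_cancel' hsT]
      rw [e, ← mul_assoc]
      exact mul_le_mul_of_nonneg_right hs' (by positivity)
    have h9 : (#{c ∈ range (2 ^ T) | P ((c : ℕ) : ℤ)} : ℝ) * (2 ^ j * 2 ^ j) ≤ ε / 2 * 2 ^ T := by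
      have e : (2 : ℝ) ^ j * 2 ^ j = 4 ^ j := by rw [← mul_pow]; norm_num
      rw [e]
      calc (#{c ∈ range (2 ^ T) | P ((c : ℕ) : ℤ)} : ℝ) * 4 ^ j ≤ (ε / 2 / 4 ^ j * 2 ^ T) * 4 ^ j := by
            apply mul_le_mul_of_nonneg_right _ (by positivity)
            exact hc.trans (mul_le_mul_of_nonneg_right (min_le_left _ _) (by positivity))
        _ = ε / 2 * 2 ^ T := by field_simp
    linarith

theorem an_per {b y : ℕ → ℤ} (h : An b y) (T m q : ℕ) : (2 : ℤ) ^ T ∣ y (m + 2 ^ T * q) - y m := by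
  have e1 := an_eval h T (m + 2 ^ T * q)
  have e2 := an_eval h T m
  have e3 : (2 : ℤ) ^ T ∣ (G b T).eval ((m + 2 ^ T * q : ℕ) : ℤ) - (G b T).eval (m : ℤ) := by
    have h1 := (G b T).sub_dvd_eval_sub ((m + 2 ^ T * q : ℕ) : ℤ) (m : ℤ)
    have e : ((m + 2 ^ T * q : ℕ) : ℤ) - (m : ℤ) = 2 ^ T * q := by push_cast; ring
    rw [e] at h1
    exact (dvd_mul_right _ _).trans h1
  have e4 := dvd_add (dvd_sub e1 e2) e3
  have e5 : y (m + 2 ^ T * q) - (G b T).eval ((m + 2 ^ T * q : ℕ) : ℤ) - (y m - (G b T).eval (m : ℤ)) +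
    ((G b T).eval ((m + 2 ^ T * q : ℕ) : ℤ) - (G b T).eval (m : ℤ)) = y (m + 2 ^ T * q) - y m := by ring
  rwa [e5] at e4

/-- The sequence `u` is analytic on the residue classes modulo `M`. -/
def Ana (M : ℕ) (u : ℕ → ℤ) : Prop := ∀ r, ∃ b : ℕ → ℤ, An b (fun m => u (r + M * m))

theorem ana_per {M : ℕ} {u : ℕ → ℤ} (h : Ana M u) (T n q : ℕ) :
    (2 : ℤ) ^ T ∣ u (n + M * 2 ^ T * q) - u n := by
  obtain ⟨b, hb⟩ := h n
  have h1 := an_per hb T 0 q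
  simp only [Nat.mul_zero, Nat.add_zero, Nat.zero_add] at h1
  have e : n + M * 2 ^ T * q = n + M * (2 ^ T * q) := by ring
  rw [e]; exact h1

open Classical in
theorem ana_count {M : ℕ} (hM : 0 < M) {u : ℕ → ℤ} (h : Ana M u) (hne : ∀ r, ∃ m, u (r + M * m) ≠ u r)
    {ε : ℝ} (hε : 0 < ε) :
    ∃ η : ℝ, 0 < η ∧ ∀ T : ℕ, ∀ P : ℤ → Prop, (∀ y m : ℤ, P (y + m * 2 ^ T) ↔ P y) →
      (#{c ∈ range (2 ^ T) | P ((c : ℕ) : ℤ)} : ℝ) ≤ η * 2 ^ T →
      (#{n ∈ range (M * 2 ^ T) | P (u n)} : ℝ) ≤ ε * 2 ^ T := by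
  have hMr : (0 : ℝ) < M := by exact_mod_cast hM
  have h1 : ∀ r, ∃ η : ℝ, 0 < η ∧ ∀ T : ℕ, ∀ P : ℤ → Prop, (∀ y m : ℤ, P (y + m * 2 ^ T) ↔ P y) →
      (#{c ∈ range (2 ^ T) | P ((c : ℕ) : ℤ)} : ℝ) ≤ η * 2 ^ T →
      (#{m ∈ range (2 ^ T) | P (u (r + M * m))} : ℝ) ≤ ε / M * 2 ^ T := by
    intro r
    obtain ⟨b, hb⟩ := h r
    exact class_count hb (by
      obtain ⟨m, hm⟩ := hne r
      exact ⟨m, by simpa using hm⟩) (by positivity)
  choose η hη0 hη using h1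
  obtain ⟨η', hη'0, hη'⟩ : ∃ η' : ℝ, 0 < η' ∧ ∀ r < M, η' ≤ η r := by
    refine ⟨(range M).inf' (nonempty_range_iff.2 hM.ne') η, ?_, fun r hr => ?_⟩
    · exact (lt_inf'_iff _).2 fun r _ => hη0 r
    · exact inf'_le _ (mem_range.2 hr)
  refine ⟨η', hη'0, fun T P hP hc => ?_⟩
  have h2T : (0 : ℝ) < 2 ^ T := by positivity
  have hsub : ({n ∈ range (M * 2 ^ T) | P (u n)} : Finset ℕ) ⊆
      (range M).biUnion (fun r => ({m ∈ range (2 ^ T) | P (u (r + M * m))} : Finset ℕ).image (fun m => r + M * m)) := by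
    intro n hn
    rw [mem_filter, mem_range] at hn
    rw [mem_biUnion]
    refine ⟨n % M, mem_range.2 (Nat.mod_lt _ hM), ?_⟩
    rw [mem_image]
    refine ⟨n / M, ?_, Nat.mod_add_div n M⟩
    rw [mem_filter, mem_range, Nat.mod_add_div]
    exact ⟨Nat.div_lt_of_lt_mul hn.1, hn.2⟩
  have h2 : (#({n ∈ range (M * 2 ^ T) | P (u n)} : Finset ℕ) : ℝ) ≤ ∑ r ∈ range M, (ε / M * 2 ^ T) := by
    have h3 := (card_le_card hsub).trans card_biUnion_le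
    have h4 : (#({n ∈ range (M * 2 ^ T) | P (u n)} : Finset ℕ) : ℝ) ≤
        ∑ r ∈ range M, (#(({m ∈ range (2 ^ T) | P (u (r + M * m))} : Finset ℕ).image (fun m => r + M * m)) : ℝ) := by
      exact_mod_cast h3
    refine h4.trans (sum_le_sum fun r hr => ?_)
    have h5 : (#(({m ∈ range (2 ^ T) | P (u (r + M * m))} : Finset ℕ).image (fun m => r + M * m)) : ℝ) ≤
        #({m ∈ range (2 ^ T) | P (u (r + M * m))} : Finset ℕ) := by exact_mod_cast card_image_le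
    refine h5.trans (hη r T P hP (hc.trans ?_))
    exact mul_le_mul_of_nonneg_right (hη' r (mem_range.1 hr)) h2T.le
  rw [sum_const, card_range, nsmul_eq_mul] at h2
  have e : (M : ℝ) * (ε / M * 2 ^ T) = ε * 2 ^ T := by field_simp
  rwa [e] at h2

open Classical in
/-- Composition with an analytic sequence. -/
theorem spr_comp_ana {M : ℕ} (hM : 0 < M) {u : ℕ → ℤ} (h : Ana M u) (hne : ∀ r, ∃ m, u (r + M * m) ≠ u r)
    {δ : ℝ} {e : ℕ → ℕ} (he : Spr δ (fun n => (e n : ℤ))) : Spr δ (fun n => u (e n)) := by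
  intro ε hε
  obtain ⟨η, hη, N0, h1⟩ := he ε hε
  obtain ⟨η', hη', h2⟩ := ana_count hM h hne hη
  refine ⟨η', hη', N0, fun N hN T hT P hP hc => ?_⟩
  have h3 := h2 T P hP hc
  set P' : ℤ → Prop := fun z => ∃ n : ℕ, (n : ℤ) ≡ z [ZMOD 2 ^ T] ∧ P (u n) with hP'
  have hper : ∀ y m : ℤ, P' (y + m * 2 ^ T) ↔ P' y := by
    intro y m
    have e1 : y + m * 2 ^ T ≡ y [ZMOD 2 ^ T] := Int.modEq_iff_dvd.2 ⟨-m, by ring⟩
    constructor
    · rintro ⟨n, hn, hn2⟩; exact ⟨n, hn.trans e1, hn2⟩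
    · rintro ⟨n, hn, hn2⟩; exact ⟨n, hn.trans e1.symm, hn2⟩
  have hcard : #({c ∈ range (2 ^ T) | P' ((c : ℕ) : ℤ)} : Finset ℕ) ≤ #({n ∈ range (M * 2 ^ T) | P (u n)} : Finset ℕ) := by
    have hsub : ({c ∈ range (2 ^ T) | P' ((c : ℕ) : ℤ)} : Finset ℕ) ⊆
        ({n ∈ range (M * 2 ^ T) | P (u n)} : Finset ℕ).image (fun n => n % 2 ^ T) := by
      intro c hc
      rw [mem_filter, mem_range] at hc
      obtain ⟨hc1, n, hn1, hn2⟩ := hc
      rw [mem_image]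
      refine ⟨n % (M * 2 ^ T), ?_, ?_⟩
      · rw [mem_filter, mem_range]
        refine ⟨Nat.mod_lt _ (by positivity), ?_⟩
        have h4 := ana_per h T (n % (M * 2 ^ T)) (n / (M * 2 ^ T))
        rw [Nat.mod_add_div] at h4
        exact (per_of hP h4).1 hn2
      · rw [Nat.mod_mul_left_mod]
        have h5 : ((n : ℕ) : ℤ) ≡ ((c : ℕ) : ℤ) [ZMOD ((2 ^ T : ℕ) : ℤ)] := by push_cast; exact hn1
        have h6 : n % 2 ^ T = c % 2 ^ T := (Int.natCast_modEq_iff).1 h5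
        rw [h6, Nat.mod_eq_of_lt hc1]
    exact (card_le_card hsub).trans card_image_le
  have h4 := h1 N hN T hT P' hper (by
    refine le_trans ?_ h3
    exact_mod_cast hcard)
  refine le_trans ?_ h4
  have hsub : ({n ∈ Icc 1 N | P (u (e n))} : Finset ℕ) ⊆ ({n ∈ Icc 1 N | P' ((e n : ℕ) : ℤ)} : Finset ℕ) := by
    intro n hn
    rw [mem_filter] at hn ⊢
    exact ⟨hn.1, e n, Int.ModEq.refl _, hn.2⟩
  exact_mod_cast card_le_card hsub

end Pool.Agent.U307.LR
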