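import Pool.Agent.U307.LR.C

/-! Linear recurrences with odd last coefficient are analytic on residue classes. -/

set_option autoImplicit false

namespace Pool.Agent.U307.LR

open Finset Polynomial fwdDiff_aux

/-- The shift of sequences. -/
noncomputable def E : Module.End ℤ (ℕ → ℤ) := shiftₗ ℕ ℤ 1

theorem E_pow (k : ℕ) (u : ℕ → ℤ) (n : ℕ) : (E ^ k) u n = u (n + k) := by
  unfold E
  rw [shiftₗ_pow_apply]; simp

theorem finite_order {χ : ℤ[X]} (hm : χ.Monic) (h0 : χ.coeff 0 % 2 = 1) :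
    ∃ M : ℕ, 0 < M ∧ ∃ B Q : ℤ[X], X ^ M - 1 = C 4 * B + χ * Q := by
  classical
  set φ := Int.castRingHom (ZMod 4) with hφ
  set g := χ.map φ with hg
  have hgm : g.Monic := hm.map φ
  have := hgm.finite_adjoinRoot
  have : Finite (AdjoinRoot g) := Module.finite_of_finite (ZMod 4)
  have hu0 : IsUnit (g.coeff 0) := by
    rw [hg, coeff_map]
    obtain ⟨t, ht⟩ : ∃ t : ℤ, χ.coeff 0 = 2 * t + 1 := ⟨χ.coeff 0 / 2, by omega⟩
    apply IsUnit.of_mul_eq_one (φ (χ.coeff 0))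
    rw [← map_mul]
    have h4 : ((4 : ℕ) : ℤ) ∣ χ.coeff 0 * χ.coeff 0 - 1 := ⟨t * t + t, by rw [ht]; push_cast; ring⟩
    have h5 := (ZMod.intCast_zmod_eq_zero_iff_dvd _ 4).2 h4
    have h6 : φ (χ.coeff 0 * χ.coeff 0) = ((χ.coeff 0 * χ.coeff 0 : ℤ) : ZMod 4) := rfl
    rw [h6]
    have h7 : ((χ.coeff 0 * χ.coeff 0 - 1 : ℤ) : ZMod 4) = ((χ.coeff 0 * χ.coeff 0 : ℤ) : ZMod 4) - 1 := by push_cast; ring
    rw [h7] at h5
    exact sub_eq_zero.1 h5
  have hroot : IsUnit (AdjoinRoot.root g) := by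
    have h1 : AdjoinRoot.mk g g = 0 := AdjoinRoot.mk_self
    have h2 : g = C (g.coeff 0) + X * g.divX := by
      conv_lhs => rw [← divX_mul_X_add g]
      ring
    rw [congrArg (AdjoinRoot.mk g) h2, map_add, map_mul, AdjoinRoot.mk_X] at h1
    have h3 : IsUnit (AdjoinRoot.mk g (C (g.coeff 0))) := (hu0.map C).map _
    have h4 : AdjoinRoot.root g * AdjoinRoot.mk g (-g.divX) = AdjoinRoot.mk g (C (g.coeff 0)) := by
      rw [map_neg]; linear_combination -h1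
    exact isUnit_of_mul_isUnit_left (h4 ▸ h3)
  obtain ⟨w, hw⟩ := hroot
  have hfin : IsOfFinOrder w := isOfFinOrder_of_finite w
  obtain ⟨M, hM, hMw⟩ := isOfFinOrder_iff_pow_eq_one.1 hfin
  refine ⟨M, hM, ?_⟩
  have h5 : (AdjoinRoot.root g) ^ M = 1 := by rw [← hw, ← Units.val_pow_eq_pow_val, hMw, Units.val_one]
  have h6 : g ∣ X ^ M - 1 := by
    rw [← AdjoinRoot.mk_eq_mk, map_pow, AdjoinRoot.mk_X, h5, map_one]
  obtain ⟨q, hq⟩ := h6
  obtain ⟨Q, hQ⟩ := map_surjective φ (ZMod.ringHom_surjective φ) q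
  have h7 : (X ^ M - 1 - χ * Q).map φ = 0 := by
    rw [Polynomial.map_sub, Polynomial.map_sub, Polynomial.map_pow, map_X, Polynomial.map_one,
      Polynomial.map_mul, hQ, ← hg, hq, sub_self]
  have h8 : C (4 : ℤ) ∣ X ^ M - 1 - χ * Q := by
    rw [C_dvd_iff_dvd_coeff]
    intro i
    have h9 := congrArg (fun p : (ZMod 4)[X] => p.coeff i) h7
    simp only [coeff_map, coeff_zero] at h9
    have h10 : (((X ^ M - 1 - χ * Q).coeff i : ℤ) : ZMod 4) = 0 := h9
    exact (ZMod.intCast_zmod_eq_zero_iff_dvd _ 4).1 h10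
  obtain ⟨B, hB⟩ := h8
  exact ⟨B, Q, by rw [← hB]; ring⟩

theorem diff_E (M : ℕ) (w : ℕ → ℤ) : fwdDiff M w = (E ^ M - 1) w := by
  funext n
  rw [LinearMap.sub_apply, Pi.sub_apply, E_pow, Module.End.one_apply]
  rfl

theorem rec_iter {χ : ℤ[X]} {M : ℕ} {B Q : ℤ[X]} (h : X ^ M - 1 = C 4 * B + χ * Q) {u : ℕ → ℤ}
    (hu : aeval E χ u = 0) (k : ℕ) :
    ∃ w : ℕ → ℤ, aeval E χ w = 0 ∧ (fwdDiff M)^[k] u = (4 : ℤ) ^ k • w := by
  induction k with
  | zero => exact ⟨u, hu, by simp⟩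
  | succ k ih =>
    obtain ⟨w, hw, hk⟩ := ih
    refine ⟨aeval E B w, ?_, ?_⟩
    · have h1 : aeval E χ (aeval E B w) = (aeval E (χ * B)) w := by rw [map_mul]; rfl
      rw [h1, mul_comm, map_mul]
      change aeval E B (aeval E χ w) = 0
      rw [hw, map_zero]
    · rw [Function.iterate_succ_apply', hk, fwdDiff_const_smul, diff_E]
      have h2 : (E ^ M - 1 : Module.End ℤ (ℕ → ℤ)) = aeval E (X ^ M - 1 : ℤ[X]) := by
        rw [map_sub, map_pow, aeval_X, map_one]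
      have h3 : aeval E (X ^ M - 1 : ℤ[X]) w = (4 : ℤ) • aeval E B w := by
        rw [h, map_add, map_mul, mul_comm χ Q, map_mul, aeval_C, LinearMap.add_apply]
        have e1 : (aeval E Q * aeval E χ : Module.End ℤ (ℕ → ℤ)) w = 0 := by
          change aeval E Q (aeval E χ w) = 0
          rw [hw, map_zero]
        rw [e1, add_zero]
        rfl
      rw [h2, h3, smul_smul, pow_succ]

theorem ana_of_dvd {M : ℕ} {u : ℕ → ℤ} (h : ∀ k, ∃ w : ℕ → ℤ, (fwdDiff M)^[k] u = (4 : ℤ) ^ k • w) : Ana M u := by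
  choose w hw using h
  intro r
  refine ⟨fun k => w k r, fun m => ?_⟩
  have h1 := shift_eq_sum_fwdDiff_iter M u m r
  have e : r + m • M = r + M * m := by rw [smul_eq_mul, Nat.mul_comm]
  rw [e] at h1
  simp only
  rw [h1]
  refine sum_congr rfl fun k _ => ?_
  rw [hw k]
  simp

/-- The sequences `u (n + d) = c 0 u (n) + ... + c (d - 1) u (n + d - 1)` with `c 0` odd. -/
def OddRec (u : ℕ → ℤ) : Prop :=
  ∃ (d : ℕ) (c : ℕ → ℤ), 1 ≤ d ∧ Odd (c 0) ∧ ∀ n, u (n + d) = ∑ i ∈ range d, c i * u (n + i)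

theorem OddRec.sm {u : ℕ → ℤ} (h : OddRec u) : ∃ M : ℕ, 0 < M ∧ ∀ k n : ℕ, (4 : ℤ) ^ k ∣ (fwdDiff M)^[k] u n := by
  obtain ⟨d, c, hd, hc, hrec⟩ := h
  set χ : ℤ[X] := X ^ d - ∑ i ∈ range d, C (c i) * X ^ i with hχ
  have hdeg : (∑ i ∈ range d, C (c i) * X ^ i : ℤ[X]).degree < d := by
    rw [degree_lt_iff_coeff_zero]
    intro m hm
    rw [finsetSum_coeff]
    refine sum_eq_zero fun i hi => ?_
    rw [mem_range] at hi
    rw [coeff_C_mul, coeff_X_pow, if_neg (by omega), mul_zero]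
  have hm : χ.Monic := monic_X_pow_sub hdeg
  have h0 : χ.coeff 0 % 2 = 1 := by
    have e : χ.coeff 0 = - c 0 := by
      rw [hχ, coeff_sub, finsetSum_coeff, coeff_X_pow, if_neg (by omega)]
      have : ∑ b ∈ range d, (C (c b) * X ^ b : ℤ[X]).coeff 0 = c 0 := by
        rw [sum_eq_single_of_mem 0 (mem_range.2 (by omega))]
        · simp
        · intro b _ hb
          rw [coeff_C_mul, coeff_X_pow, if_neg (by omega), mul_zero]
      rw [this, zero_sub]
    rw [e]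
    have := Int.odd_iff.1 hc
    omega
  obtain ⟨M, hM, B, Q, hBQ⟩ := finite_order hm h0
  have hu : aeval E χ u = 0 := by
    rw [hχ, map_sub, map_pow, aeval_X, map_sum]
    funext n
    rw [LinearMap.sub_apply, Pi.sub_apply, E_pow, LinearMap.sum_apply, Finset.sum_apply, hrec n, Pi.zero_apply,
      sub_eq_zero]
    refine sum_congr rfl fun i _ => ?_
    rw [map_mul, map_pow, aeval_X, aeval_C]
    change c i * u (n + i) = (algebraMap ℤ (Module.End ℤ (ℕ → ℤ)) (c i)) ((E ^ i) u) n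
    rw [Module.algebraMap_end_apply, Pi.smul_apply, E_pow, smul_eq_mul]
  refine ⟨M, hM, fun k n => ?_⟩
  obtain ⟨w, -, hw⟩ := rec_iter hBQ hu k
  rw [hw]
  exact ⟨w n, by simp⟩

end Pool.Agent.U307.LR
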