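import Pool.Agent.U307.LR.D

/-! Smooth sequences. -/

set_option autoImplicit false

namespace Pool.Agent.U307.LR

open Finset Polynomial
open Pool.Agent.Y967.CM (Spr Spread)

/-- `4 ^ k` divides the `k`-th differences with step `M`. -/
def Sm (M : ℕ) (u : ℕ → ℤ) : Prop := ∀ k n : ℕ, (4 : ℤ) ^ k ∣ (fwdDiff M)^[k] u n

/-- The same, written out. -/
def Smooth (u : ℕ → ℤ) : Prop :=
  ∃ M : ℕ, 1 ≤ M ∧ ∀ k n : ℕ, (4 : ℤ) ^ k ∣ ∑ j ∈ range (k + 1), (-1) ^ (k - j) * (k.choose j : ℤ) * u (n + j * M)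

theorem sm_iff (M : ℕ) (u : ℕ → ℤ) : Sm M u ↔
    ∀ k n : ℕ, (4 : ℤ) ^ k ∣ ∑ j ∈ range (k + 1), (-1) ^ (k - j) * (k.choose j : ℤ) * u (n + j * M) := by
  unfold Sm
  refine forall_congr' fun k => forall_congr' fun n => ?_
  rw [fwdDiff_iter_eq_sum_shift]
  simp only [smul_eq_mul]

theorem smooth_iff (u : ℕ → ℤ) : Smooth u ↔ ∃ M : ℕ, 1 ≤ M ∧ Sm M u := by
  unfold Smooth
  simp only [sm_iff]

theorem Sm.ana {M : ℕ} {u : ℕ → ℤ} (h : Sm M u) : Ana M u := by
  apply ana_of_dvd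
  intro k
  choose w hw using h k
  refine ⟨w, funext fun n => ?_⟩
  rw [hw n]; simp

theorem fwdDiff_mul (M : ℕ) (f g : ℕ → ℤ) :
    fwdDiff M (f * g) = fwdDiff M f * g + (f * fwdDiff M g + fwdDiff M f * fwdDiff M g) := by
  funext n
  simp only [fwdDiff, Pi.mul_apply, Pi.add_apply]
  ring

theorem mul_aux {M : ℕ} {u v : ℕ → ℤ} (hu : Sm M u) (hv : Sm M v) : ∀ k i j n : ℕ,
    (4 : ℤ) ^ (i + j + k) ∣ (fwdDiff M)^[k] ((fwdDiff M)^[i] u * (fwdDiff M)^[j] v) n := by
  intro k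
  induction k with
  | zero =>
    intro i j n
    rw [Nat.add_zero, pow_add, Function.iterate_zero, id_eq, Pi.mul_apply]
    exact mul_dvd_mul (hu i n) (hv j n)
  | succ k ih =>
    intro i j n
    rw [Function.iterate_succ_apply, fwdDiff_mul, fwdDiff_iter_add, fwdDiff_iter_add]
    have h1 := ih (i + 1) j n
    have h2 := ih i (j + 1) n
    have h3 := ih (i + 1) (j + 1) n
    rw [Function.iterate_succ_apply'] at h1
    rw [Function.iterate_succ_apply'] at h2
    rw [Function.iterate_succ_apply', Function.iterate_succ_apply'] at h3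
    simp only [Pi.add_apply]
    refine dvd_add ?_ (dvd_add ?_ ?_)
    · have e : i + j + (k + 1) = i + 1 + j + k := by omega
      rw [e]; exact h1
    · have e : i + j + (k + 1) = i + (j + 1) + k := by omega
      rw [e]; exact h2
    · exact (pow_dvd_pow 4 (by omega)).trans h3

theorem Sm.mul {M : ℕ} {u v : ℕ → ℤ} (hu : Sm M u) (hv : Sm M v) : Sm M (u * v) := by
  intro k n
  have h := mul_aux hu hv k 0 0 n
  simpa using h

theorem Sm.add {M : ℕ} {u v : ℕ → ℤ} (hu : Sm M u) (hv : Sm M v) : Sm M (u + v) := by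
  intro k n
  rw [fwdDiff_iter_add, Pi.add_apply]
  exact dvd_add (hu k n) (hv k n)

theorem fwdDiff_mult (M : ℕ) (f : ℕ → ℤ) : ∀ (l n : ℕ),
    fwdDiff (M * l) f n = ∑ i ∈ range l, fwdDiff M f (n + M * i) := by
  intro l
  induction l with
  | zero => intro n; simp [fwdDiff]
  | succ l ih =>
    intro n
    rw [sum_range_succ, ← ih n]
    simp only [fwdDiff]
    have e : n + M * (l + 1) = n + M * l + M := by ring
    rw [e]; ring

/-- Multiples of the step. -/
theorem Sm.mult {M : ℕ} {u : ℕ → ℤ} (hu : Sm M u) (l : ℕ) : Sm (M * l) u := by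
  have key : ∀ k i n : ℕ, (4 : ℤ) ^ (i + k) ∣ (fwdDiff (M * l))^[k] ((fwdDiff M)^[i] u) n := by
    intro k
    induction k with
    | zero => intro i n; exact hu i n
    | succ k ih =>
      intro i n
      rw [Function.iterate_succ_apply]
      have e : fwdDiff (M * l) ((fwdDiff M)^[i] u) =
          ∑ s ∈ range l, fun n => (fwdDiff M)^[i + 1] u (n + M * s) := by
        funext n
        rw [fwdDiff_mult, Finset.sum_apply]
        refine sum_congr rfl fun s _ => ?_
        rw [Function.iterate_succ_apply']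
      rw [e, fwdDiff_iter_finsetSum, Finset.sum_apply]
      refine dvd_sum fun s _ => ?_
      have h1 := ih (i + 1) (n + M * s)
      rw [fwdDiff_iter_comp_add]
      have e2 : i + (k + 1) = i + 1 + k := by omega
      rw [e2]; exact h1
  intro k n
  have h := key k 0 n
  simpa using h

theorem Smooth.mul {u v : ℕ → ℤ} (hu : Smooth u) (hv : Smooth v) : Smooth (fun n => u n * v n) := by
  rw [smooth_iff] at *
  obtain ⟨M, hM, h1⟩ := hu
  obtain ⟨M', hM', h2⟩ := hv
  exact ⟨M * M', Nat.mul_pos hM hM', (h1.mult M').mul (Nat.mul_comm M' M ▸ h2.mult M)⟩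

theorem Smooth.add {u v : ℕ → ℤ} (hu : Smooth u) (hv : Smooth v) : Smooth (fun n => u n + v n) := by
  rw [smooth_iff] at *
  obtain ⟨M, hM, h1⟩ := hu
  obtain ⟨M', hM', h2⟩ := hv
  exact ⟨M * M', Nat.mul_pos hM hM', (h1.mult M').add (Nat.mul_comm M' M ▸ h2.mult M)⟩

theorem OddRec.smooth {u : ℕ → ℤ} (h : OddRec u) : Smooth u := by
  rw [smooth_iff]
  obtain ⟨M, hM, h1⟩ := h.sm
  exact ⟨M, hM, h1⟩

/-- integer polynomials -/
theorem poly_step (f : ℤ[X]) : ∃ g : ℤ[X], ∀ n : ℕ, f.eval ((n : ℤ) + 4) - f.eval (n : ℤ) = 4 * g.eval (n : ℤ) := by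
  have h1 : C (4 : ℤ) ∣ f.comp (X + C 4) - f := by
    have h2 := f.sub_dvd_eval_sub
    have h3 : (X + C 4 : ℤ[X]) - X ∣ (f.map C).eval (X + C 4) - (f.map C).eval X :=
      (f.map C).sub_dvd_eval_sub _ _
    rw [eval_map, eval_map] at h3
    have e1 : eval₂ C (X + C 4) f = f.comp (X + C 4) := rfl
    have e2 : eval₂ C X f = f := eval₂_C_X
    rw [e1, e2, add_sub_cancel_left] at h3
    exact h3
  obtain ⟨g, hg⟩ := h1
  refine ⟨g, fun n => ?_⟩
  have h2 := congrArg (fun p : ℤ[X] => p.eval (n : ℤ)) hg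
  simp only [eval_sub, eval_comp, eval_add, eval_X, eval_C, eval_mul] at h2
  exact h2

theorem poly_sm (f : ℤ[X]) : Sm 4 (fun n => f.eval (n : ℤ)) := by
  have key : ∀ (k : ℕ) (f : ℤ[X]), ∃ g : ℤ[X], ∀ n : ℕ, (fwdDiff 4)^[k] (fun n : ℕ => f.eval (n : ℤ)) n = 4 ^ k * g.eval (n : ℤ) := by
    intro k
    induction k with
    | zero => intro f; exact ⟨f, fun n => by simp⟩
    | succ k ih =>
      intro f
      obtain ⟨g, hg⟩ := poly_step f
      obtain ⟨g', hg'⟩ := ih g
      refine ⟨g', fun n => ?_⟩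
      rw [Function.iterate_succ_apply]
      have e : fwdDiff 4 (fun n : ℕ => f.eval (n : ℤ)) = (4 : ℤ) • fun n : ℕ => g.eval (n : ℤ) := by
        funext n
        simp only [fwdDiff, Pi.smul_apply, smul_eq_mul]
        rw [← hg n]; push_cast; ring
      rw [e, fwdDiff_iter_const_smul, Pi.smul_apply, hg', smul_eq_mul]
      ring
  intro k n
  obtain ⟨g, hg⟩ := key k f
  rw [hg n]
  exact dvd_mul_right _ _

/-- Newton series with factorials. -/
theorem newton_smooth (c : ℕ → ℤ) : Smooth (fun n => ∑ j ∈ range (n + 1), c j * (n.descFactorial j : ℤ)) := by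
  rw [smooth_iff]
  refine ⟨4, by norm_num, fun k n => ?_⟩
  rw [fwdDiff_iter_eq_sum_shift]
  -- the terms up to `n + 4 k`
  set L := n + 4 * k + 1 with hL
  have h1 : ∀ m : ℕ, m < L → ∑ j ∈ range (m + 1), c j * (m.descFactorial j : ℤ) =
      ∑ j ∈ range L, c j * (descPochhammer ℤ j).eval (m : ℤ) := by
    intro m hm
    have e : ∑ j ∈ range (m + 1), c j * (m.descFactorial j : ℤ) = ∑ j ∈ range L, c j * (m.descFactorial j : ℤ) := by
      apply sum_subset (range_mono (by omega))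
      intro j _ hj
      rw [mem_range, not_lt] at hj
      rw [Nat.descFactorial_eq_zero_iff_lt.2 (by omega)]; simp
    rw [e]
    refine sum_congr rfl fun j _ => ?_
    rw [descPochhammer_eval_eq_descFactorial]
  have h2 : ∑ i ∈ range (k + 1), ((-1 : ℤ) ^ (k - i) * (k.choose i : ℤ)) •
      (∑ j ∈ range (n + i • 4 + 1), c j * ((n + i • 4).descFactorial j : ℤ)) =
      ∑ i ∈ range (k + 1), ((-1 : ℤ) ^ (k - i) * (k.choose i : ℤ)) •
      (fun m : ℕ => (∑ j ∈ range L, C (c j) * descPochhammer ℤ j : ℤ[X]).eval (m : ℤ)) (n + i • 4) := by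
    refine sum_congr rfl fun i hi => ?_
    rw [mem_range] at hi
    rw [h1 _ (by rw [smul_eq_mul]; omega)]
    simp only [eval_finsetSum, eval_mul, eval_C]
  have h3 := poly_sm (∑ j ∈ range L, C (c j) * descPochhammer ℤ j) k n
  rw [fwdDiff_iter_eq_sum_shift] at h3
  rw [h2]
  exact h3

/-- The sequence is constant on no arithmetic progression. -/
def NoConst (u : ℕ → ℤ) : Prop := ∀ a q : ℕ, 1 ≤ q → ∃ m, u (a + q * m) ≠ u a

theorem Smooth.spr_comp {u : ℕ → ℤ} (hu : Smooth u) (hne : NoConst u) {δ : ℝ} {e : ℕ → ℕ}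
    (he : Spr δ (fun n => (e n : ℤ))) : Spr δ (fun n => u (e n)) := by
  obtain ⟨M, hM, h1⟩ := (smooth_iff u).1 hu
  exact spr_comp_ana hM h1.ana (fun r => hne r M hM) he

end Pool.Agent.U307.LR
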